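import Pool.Agent.Helper43.UN.GoalsG
import Pool.Agent.Helper73.EW.E8a

/-! # Project UN, packet E8an -/

set_option autoImplicit false

namespace Pool.Agent.Helper86.UN

open Finset
open Pool.Agent.Helper43.Hw (T na va lz Play aa ac sc oo sk U Dd Sd Pn nx bb np GoalH1 GoalH4)
open Pool.Agent.Helper43.UN
open Pool.Agent.Helper73.EW (sk_sum)

theorem arithA {μ A l v1 b g o j : ℕ} (hμ : 1 ≤ μ) (hl : 1 ≤ l)
    (hb : 2 ^ 42 ≤ b) (hi : l * A ≤ 32 * μ ^ 2) (hv : 1280 * v1 ≤ b * l) (hvμ : v1 ≤ μ)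
    (hj : j ≤ v1) (ho : 10 * μ * o ≤ 42 * A + 10 * μ)
    (hg : g ≤ 2 * μ + 9 * j + j * o) : 20 * g ≤ 3 * b * μ := by
  have e1 : g ≤ 2 * μ + 9 * v1 + v1 * o := by
    have h1 : j * o ≤ v1 * o := Nat.mul_le_mul_right _ hj
    omega
  have e2 : 10 * μ * g ≤ 20 * μ ^ 2 + 100 * (μ * v1) + 42 * (v1 * A) := by
    calc 10 * μ * g ≤ 10 * μ * (2 * μ + 9 * v1 + v1 * o) := Nat.mul_le_mul_left _ e1
      _ = 20 * μ ^ 2 + 90 * (μ * v1) + v1 * (10 * μ * o) := by ring
      _ ≤ 20 * μ ^ 2 + 90 * (μ * v1) + v1 * (42 * A + 10 * μ) := by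
          have := Nat.mul_le_mul_left v1 ho
          omega
      _ = 20 * μ ^ 2 + 100 * (μ * v1) + 42 * (v1 * A) := by ring
  have e3 : μ * (10 * (l * g)) ≤ μ * (20 * (l * μ) + 100 * (l * v1) + 1344 * (μ * v1)) := by
    calc μ * (10 * (l * g)) = l * (10 * μ * g) := by ring
      _ ≤ l * (20 * μ ^ 2 + 100 * (μ * v1) + 42 * (v1 * A)) := Nat.mul_le_mul_left _ e2
      _ = l * (20 * μ ^ 2) + l * (100 * (μ * v1)) + 42 * v1 * (l * A) := by ring
      _ ≤ l * (20 * μ ^ 2) + l * (100 * (μ * v1)) + 42 * v1 * (32 * μ ^ 2) := by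
          have := Nat.mul_le_mul_left (42 * v1) hi
          omega
      _ = μ * (20 * (l * μ) + 100 * (l * v1) + 1344 * (μ * v1)) := by ring
  have e4 : 10 * (l * g) ≤ 20 * (l * μ) + 100 * (l * v1) + 1344 * (μ * v1) :=
    Nat.le_of_mul_le_mul_left e3 hμ
  have e5 : l * v1 ≤ l * μ := Nat.mul_le_mul_left _ hvμ
  have e6 : 1280 * (μ * v1) ≤ l * (b * μ) := by
    calc 1280 * (μ * v1) = μ * (1280 * v1) := by ring
      _ ≤ μ * (b * l) := Nat.mul_le_mul_left _ hv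
      _ = l * (b * μ) := by ring
  have e7 : 2 ^ 42 * (l * μ) ≤ l * (b * μ) := by
    calc 2 ^ 42 * (l * μ) = l * (2 ^ 42 * μ) := by ring
      _ ≤ l * (b * μ) := Nat.mul_le_mul_left _ (Nat.mul_le_mul_right _ hb)
  have e8 : l * (20 * g) ≤ l * (3 * b * μ) := by
    have h1 : l * (20 * g) = 20 * (l * g) := by ring
    have h2 : l * (3 * b * μ) = 3 * (l * (b * μ)) := by ring
    rw [h1, h2]
    omega
  exact Nat.le_of_mul_le_mul_left e8 hl

theorem arithB {μ A l b g o L : ℕ} (hμ : 1 ≤ μ) (hb : 2 ^ 42 ≤ b) (hlo : 4 * μ ^ 2 ≤ l * A)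
    (hbl : b * l ≤ μ) (hL : 9 * A ≤ 10 * L) (hg : 20 * g ≤ 3 * b * μ)
    (ho : L ≤ μ * o + g) : μ + 16 * l ≤ 16 * l * o := by
  have e5 : 36 * μ ^ 2 ≤ 10 * (l * L) := by
    calc 36 * μ ^ 2 = 9 * (4 * μ ^ 2) := by ring
      _ ≤ 9 * (l * A) := Nat.mul_le_mul_left _ hlo
      _ = l * (9 * A) := by ring
      _ ≤ l * (10 * L) := Nat.mul_le_mul_left _ hL
      _ = 10 * (l * L) := by ring
  have e6 : 20 * (l * g) ≤ 3 * μ ^ 2 := by
    calc 20 * (l * g) = l * (20 * g) := by ring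
      _ ≤ l * (3 * b * μ) := Nat.mul_le_mul_left _ hg
      _ = 3 * (b * l * μ) := by ring
      _ ≤ 3 * (μ * μ) := Nat.mul_le_mul_left _ (Nat.mul_le_mul_right _ hbl)
      _ = 3 * μ ^ 2 := by ring
  have e7 : l * L ≤ μ * (l * o) + l * g := by
    calc l * L ≤ l * (μ * o + g) := Nat.mul_le_mul_left _ ho
      _ = μ * (l * o) + l * g := by ring
  have e9 : 2 ^ 42 * l ≤ μ := le_trans (Nat.mul_le_mul_right _ hb) hbl
  have e10 : 2 ^ 42 * (μ * l) ≤ μ ^ 2 := by
    calc 2 ^ 42 * (μ * l) = μ * (2 ^ 42 * l) := by ring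
      _ ≤ μ * μ := Nat.mul_le_mul_left _ e9
      _ = μ ^ 2 := by ring
  have e8 : μ * (μ + 16 * l) ≤ μ * (16 * l * o) := by
    have h1 : μ * (16 * l * o) = 16 * (μ * (l * o)) := by ring
    have h2 : μ * (μ + 16 * l) = μ ^ 2 + 16 * (μ * l) := by ring
    rw [h1, h2]
    omega
  exact Nat.le_of_mul_le_mul_left e8 hμ

theorem goalE8an' (h1 : GoalH1) (h4 : GoalH4) : GoalE8an := by
  intro μ δ R A N K b l Lg q v τ βp βm S W ℓ κ x hV
  have hl := hV.par.l1
  have hR1 := hV.par.R1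
  have hL1 := hV.par.L1
  have hb1 := hV.par.b1
  have hb2 := hV.par.b2
  have hb42 : 2 ^ 42 ≤ b := by
    calc 2 ^ 42 = 2 ^ 42 * 1 := by norm_num
      _ ≤ 2 ^ 42 * Lg := Nat.mul_le_mul_left _ hL1
      _ ≤ b := hb1
  have hbl : b * l ≤ μ := by
    refine le_trans ?_ hb2
    calc b * l = 1 * (b * l) := (one_mul _).symm
      _ ≤ (2 ^ 33 * (q + 1) ^ 2) * (b * l) :=
          Nat.mul_le_mul_right _ (Nat.one_le_iff_ne_zero.2 (by positivity))
      _ = 2 ^ 33 * b * (q + 1) ^ 2 * l := by ring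
  have hμ : 1 ≤ μ := le_trans (Nat.mul_pos (by omega) hl) hbl
  have hμR : μ + 2 ≤ R := by omega
  have hvb := hV.vb
  have hvμ : 2 ^ q * v ≤ μ := by omega
  have ht1 := hV.t1
  have hP := hV.play
  have hg2 := hV.g2
  have hpa := hV.pa
  have ht0 := hV.t0
  have ht3 := hV.t3
  have h1' := h1 μ R N κ x hμ hμR hP
  have h4' := h4 μ R N κ x hμ hμR hP
  have hna : ∀ t, t + 1 + μ ≤ R → na μ R t = 0 := by
    intro t ht
    unfold na
    omega
  have hstep : ∀ t, τ ≤ t → t + 2 + μ ≤ R →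
      lz μ R N κ x (t + 1) + oo μ R κ x t + sk μ κ x t = lz μ R N κ x t := by
    intro t h1 h2
    obtain ⟨k1, k2⟩ := hpa t h1 (by omega)
    obtain ⟨k3, k4⟩ := hpa (t + 1) (by omega) (by omega)
    have g := (h4' t (by omega)).1 (by rw [k1]; exact hg2) (by rw [k3]; exact hg2)
    rw [k2, k4, hna t (by omega), hna (t + 1) (by omega), k1, k3, Nat.sub_self, zero_mul,
      mul_zero] at g
    omega
  have hst : ∀ t, τ ≤ t → t + 2 + μ ≤ R → ℓ t ≤ ℓ (t + 1) + 1 ∧ ℓ (t + 1) ≤ ℓ t + 9 :=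
    fun t h1 h2 => hV.i0 t h1 (by omega)
  have hC2 : ∀ j, τ + j + 1 + μ ≤ R → ℓ (τ + j) + lz μ R N κ x τ ≤
      lz μ R N κ x (τ + j) + ℓ τ + 9 * j + ∑ i ∈ range j, oo μ R κ x (τ + i) +
        ∑ i ∈ range j, sk μ κ x (τ + i) := by
    intro j
    induction j with
    | zero => intro _; simp; omega
    | succ j ih =>
      intro hj
      have g1 := ih (by omega)
      have g2 := hstep (τ + j) (by omega) (by omega)
      have g3 := hst (τ + j) (by omega) (by omega)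
      rw [show τ + (j + 1) = τ + j + 1 by ring, sum_range_succ, sum_range_succ]
      omega
  have hoo : ∀ t, τ ≤ t → t + 1 + μ ≤ R → oo μ R κ x t ≤ oo μ R κ x τ := by
    intro t h ht
    obtain ⟨k1, _⟩ := hpa t h (by omega)
    have g6 := h1'.2.2.2.2.2.1
    unfold oo
    refine card_le_card ?_
    intro c hc
    rw [mem_filter, mem_range] at hc ⊢
    obtain ⟨c1, c2⟩ := hc
    have c3 : c < κ τ := by rw [← k1]; exact c1
    refine ⟨c3, ?_⟩
    have u1 := (g6 t (by omega) c c1).2.2.2.1 c2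
    exact (g6 τ (by omega) c c3).2.2.2.2 (by omega)
  have hup : ∀ j, τ + j + 1 + μ ≤ R →
      20 * (ℓ (τ + j) - lz μ R N κ x (τ + j)) ≤ 3 * b * μ := by
    intro j hj
    have hO : ∑ i ∈ range j, oo μ R κ x (τ + i) ≤ j * oo μ R κ x τ := by
      have := Finset.sum_le_card_nsmul (range j) (fun i => oo μ R κ x (τ + i))
        (oo μ R κ x τ) (fun i hi => by
          rw [mem_range] at hi
          exact hoo (τ + i) (by omega) (by omega))
      rw [card_range, smul_eq_mul] at this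
      exact this
    have hS : ∑ i ∈ range j, sk μ κ x (τ + i) ≤ μ :=
      sk_sum fun y h1 h2 => (hpa y h1 (by omega)).1
    have g1 := hC2 j hj
    exact arithA hμ hl hb42 hV.hi hvb hvμ (j := j) (by omega) hV.oa (by omega)
  have hgr : ∀ t, τ ≤ t → t + 1 + μ ≤ R → lz μ R N κ x t ≤ ℓ t →
      μ + 16 * l ≤ 16 * l * oo μ R κ x t := by
    intro t h1 h2 h3
    obtain ⟨k1, k2⟩ := hpa t h1 (by omega)
    have g5 : 20 * (ℓ t - lz μ R N κ x t) ≤ 3 * b * μ := by
      have := hup (t - τ) (by omega)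
      rwa [Nat.add_sub_cancel' h1] at this
    have g6 := Pool.Agent.Helper43.Hw.PkH6.lz_le (μ := μ) (R := R) (N := N) (κ := κ) (x := x)
      (y := t) (by rw [k1]; exact hg2) (hna t (by omega))
    rw [k2, hna t (by omega)] at g6
    have g7 := (hV.ll t h1 (by omega)).1
    exact arithB (o := oo μ R κ x t) hμ hb42 hV.lo hbl g7 g5 (by omega)
  have ho1 : ∀ t, μ + 16 * l ≤ 16 * l * oo μ R κ x t → 1 ≤ oo μ R κ x t := by
    intro t h
    rcases Nat.eq_zero_or_pos (oo μ R κ x t) with h0 | h0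
    · rw [h0, mul_zero] at h
      omega
    · exact h0
  have hC1 : ∀ j, τ + j + 1 + μ ≤ R → lz μ R N κ x (τ + j) ≤ ℓ (τ + j) := by
    intro j
    induction j with
    | zero => intro _; exact ht0
    | succ j ih =>
      intro hj
      have g1 := ih (by omega)
      have g2 := hstep (τ + j) (by omega) (by omega)
      have g3 := hst (τ + j) (by omega) (by omega)
      have g4 := ho1 _ (hgr (τ + j) (by omega) (by omega) g1)
      rw [show τ + (j + 1) = τ + j + 1 by ring]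
      omega
  have hall : ∀ z, τ ≤ z → z + 1 + μ ≤ R → lz μ R N κ x z ≤ ℓ z := by
    intro z h hz
    have := hC1 (z - τ) (by omega)
    rwa [Nat.add_sub_cancel' h] at this
  refine ⟨fun t h1 h2 => ⟨hall t h1 h2, ?_⟩, fun t h1 h2 => ?_⟩
  · have := hup (t - τ) (by omega)
    rwa [Nat.add_sub_cancel' h1] at this
  · have g1 := hstep t h1 h2
    have g2 := hst t h1 (by omega)
    have g3 := hall t h1 (by omega)
    have g4 := hall (t + 1) (by omega) (by omega)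
    have g8 := hgr t h1 (by omega) g3
    have g9 : 16 * l * (ℓ t - lz μ R N κ x t) + 16 * l * oo μ R κ x t ≤
        16 * l * (ℓ (t + 1) - lz μ R N κ x (t + 1)) + 16 * l := by
      have g10 : 16 * l * ((ℓ t - lz μ R N κ x t) + oo μ R κ x t) ≤
          16 * l * ((ℓ (t + 1) - lz μ R N κ x (t + 1)) + 1) :=
        Nat.mul_le_mul_left _ (by omega)
      rw [mul_add, mul_add, mul_one] at g10
      exact g10
    omega

theorem goalE8an : GoalE8an :=
  goalE8an' Pool.Agent.Helper43.Hw.PkH1.goalH1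
    (Pool.Agent.Helper43.Hw.PkH4.goalH4 Pool.Agent.Helper43.Hw.PkH1.goalH1)

end Pool.Agent.Helper86.UN
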