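import Pool.Agent.Helper43.UN.GoalsH

/-! # Project UN, packet UCn: the points which have started before the row `Y` become old at `Y` -/

set_option autoImplicit false

namespace Pool.Agent.Helper86.UN

open Finset
open Pool.Agent.Lead.Sh
open Pool.Agent.Helper43.Hw (T na va lz Play aa ac sc oo sk U Dd Sd Pn nx bb np T_choose)
open Pool.Agent.Helper43.Gm (Pri st mv nn)
open Pool.Agent.Helper18.UW (UPlay UPre uz GoalU1)
open Pool.Agent.Helper43.UN (ck cx)

theorem ucn_va_congr (μ R : ℕ) (κ κ' x x' : ℕ → ℕ) (c z : ℕ)
    (h : ∀ y ≤ z, κ' y = κ y ∧ x' y = x y) : va μ R κ' x' c z = va μ R κ x c z := by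
  have h1 : st κ' c z = st κ c z := by
    unfold st
    congr 1
    apply Finset.filter_congr
    intro y hy
    rw [(h y (Finset.mem_range.1 hy).le).1]
  have h2 : mv κ' x' (fun _ => μ) c z = mv κ x (fun _ => μ) c z := by
    unfold mv
    apply Finset.filter_congr
    intro y hy
    rw [(h y (Finset.mem_range.1 hy).le).1, (h y (Finset.mem_range.1 hy).le).2]
  unfold va nn
  rw [h1, h2, (h z le_rfl).1, (h z le_rfl).2]

theorem ucn_va_le (μ R : ℕ) (κ x : ℕ → ℕ) (c z : ℕ) (h : c < κ z) :
    va μ R κ x c z ≤ μ := by
  unfold va nn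
  rw [if_neg (by omega), if_neg (by omega), if_neg (by omega)]
  exact (Nat.sub_le _ _).trans (Nat.sub_le _ _)

theorem ucn_va_eq (μ R : ℕ) (κ x : ℕ → ℕ) (z : ℕ) : va μ R κ x (κ z) z = x z := by
  unfold va nn
  rw [if_neg (by omega), if_neg (by omega), if_pos rfl]

/-- monotone sequences with drops -/
theorem ucn_sum (s : Finset ℕ) (μ : ℕ) (a b : ℕ → ℕ) (h1 : ∀ c ∈ s, a c ≤ μ)
    (h2 : ∀ c ∈ s, 0 < a c → b c + 1 ≤ a c) (h3 : ∀ c ∈ s, a c = 0 → b c = 0) :
    ∃ f, ∑ c ∈ s, b c + f ≤ ∑ c ∈ s, a c ∧ ∑ c ∈ s, a c ≤ μ * f := by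
  refine ⟨∑ c ∈ s, (if 0 < a c then 1 else 0), ?_, ?_⟩
  · rw [← sum_add_distrib]
    apply sum_le_sum
    intro c hc
    split_ifs with h
    · exact h2 c hc h
    · rw [h3 c hc (by omega)]
      omega
  · rw [mul_sum]
    apply sum_le_sum
    intro c hc
    split_ifs with h
    · rw [mul_one]
      exact h1 c hc
    · omega

theorem goalUCn : Pool.Agent.Helper43.UN.GoalUCn := by
  intro hU1 m μ R Y N g κ x κ' x' hμ hY hYR hm hP hκY hbig hg hκ' hx'
  have hmono : ∀ d z, z + d ≤ Y → κ z ≤ κ (z + d) := by
    intro d
    induction d with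
    | zero => intro z _; exact le_rfl
    | succ d ih =>
      intro z hz
      exact (ih z (by omega)).trans (hP.mono (z + d) (by omega))
  have hmono' : ∀ z z', z ≤ z' → z' ≤ Y → κ z ≤ κ z' := by
    intro z z' h1 h2
    have := hmono (z' - z) z (by omega)
    rwa [Nat.add_sub_cancel' h1] at this
  have hkY : κ (Y - 1) ≤ κ Y := hmono' (Y - 1) Y (by omega) le_rfl
  have hkN : κ (Y - 1) < N := by omega
  have hgeq : g = κ (Y - 1) + (if 0 < x (Y - 1) then 1 else 0) := hg
  have hkg : κ (Y - 1) ≤ g := by omega
  have hgN : g ≤ N := by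
    rw [hgeq]
    split_ifs <;> omega
  have ekl : ∀ y, y < Y → κ' y = κ y := by
    intro y hy
    rw [hκ']
    unfold ck
    rw [if_pos hy]
  have ekr : ∀ y, Y ≤ y → κ' y = g := by
    intro y hy
    rw [hκ']
    unfold ck
    rw [if_neg (by omega)]
  have exl : ∀ y, y < Y → x' y = x y := by
    intro y hy
    rw [hx']
    unfold cx
    rw [if_pos hy]
  have exr : ∀ y, Y ≤ y → x' y = if g < N then na (m g) R y else 0 := by
    intro y hy
    rw [hx']
    unfold cx
    rw [if_neg (by omega)]
  -- the points moving at `Y - 1`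
  have hd : ∀ y < Y, κ' y ≤ g ∧ (κ' y = g → x' y = 0) := by
    intro y hy
    rw [ekl y hy, exl y hy]
    have h1 := hmono' y (Y - 1) (by omega) (by omega)
    refine ⟨h1.trans hkg, fun h2 => ?_⟩
    have h3 : ¬ 0 < x (Y - 1) := by
      intro h4
      rw [if_pos h4] at hgeq
      omega
    by_contra h4
    have h5 : ∀ d, y + d ≤ Y - 1 → 0 < x (y + d) := by
      intro d
      induction d with
      | zero => intro _; exact Nat.pos_of_ne_zero h4
      | succ d ih =>
        intro h6
        have h7 := ih (by omega)
        have h8 := hmono' y (y + d) (by omega) (by omega)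
        have h9 := hmono' (y + d) (y + d + 1) (by omega) (by omega)
        have h10 := hmono' (y + d + 1) (Y - 1) (by omega) (by omega)
        have h11 := hP.inc (y + d) (by omega) h7 (by omega)
        have h12 : y + (d + 1) = y + d + 1 := by ring
        rw [h12]
        omega
    have h6 := h5 (Y - 1 - y) (by omega)
    rw [show y + (Y - 1 - y) = Y - 1 by omega] at h6
    exact h3 h6
  have hPl : UPlay m R N κ' x' := by
    constructor
    · intro y hy
      rcases lt_trichotomy (y + 1) Y with h | h | h
      · rw [ekl y (by omega), ekl (y + 1) h]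
        exact hP.mono y (by omega)
      · rw [ekl y (by omega), ekr (y + 1) (by omega), show y = Y - 1 by omega]
        exact hkg
      · rw [ekr y (by omega), ekr (y + 1) (by omega)]
    · intro y _
      by_cases h : y < Y
      · rw [ekl y h]
        exact hP.le y h.le
      · rw [ekr y (by omega)]
        exact hgN
    · intro y hy
      by_cases h : y < Y
      · rw [ekl y h, exl y h]
        exact hP.lt y h.le
      · rw [ekr y (by omega), exr y (by omega)]
        intro h2
        rw [if_pos h2]
        have := (hm g h2).1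
        unfold na
        omega
    · intro y hy
      by_cases h : y < Y
      · rw [ekl y h, exl y h]
        intro h2
        rw [hP.nat y h.le (κ y) le_rfl h2]
        exact Nat.zero_le _
      · rw [ekr y (by omega), exr y (by omega)]
        intro h2
        rw [if_pos h2]
    · intro y hy
      by_cases h : y < Y
      · rw [ekl y h, exl y h]
        exact hP.fin y h.le
      · rw [ekr y (by omega), exr y (by omega)]
        intro h2
        rw [if_neg (by omega)]
    · intro y hy
      rcases lt_trichotomy (y + 1) Y with h | h | h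
      · rw [ekl y (by omega), ekl (y + 1) h, exl y (by omega), exl (y + 1) h]
        exact hP.inc y (by omega)
      · rw [ekl y (by omega), ekr (y + 1) (by omega), exl y (by omega),
          show y = Y - 1 by omega]
        intro h2 h3
        rw [if_pos h2] at hgeq
        omega
      · rw [ekr y (by omega), ekr (y + 1) (by omega), exr y (by omega), exr (y + 1) (by omega)]
        intro h2 _
        by_cases h3 : g < N
        · rw [if_pos h3] at h2 ⊢
          rw [if_pos h3]
          unfold na at h2 ⊢
          omega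
        · rw [if_neg h3] at h2
          omega
    · rw [ekr (R - 1) (by omega), ekr (R - 2) (by omega)]
    · rw [ekr (R - 1) (by omega), exr (R - 1) (by omega)]
      intro h2
      rw [if_pos h2]
      unfold na
      omega
  obtain ⟨u1, u2, u3, u4, u5, u6, u7, u8, u9⟩ := hU1 m R N κ' x' hm (by omega) hPl
  -- the rows before `Y`
  have hf : ∀ y < Y, uz m R g κ' x' y = uz m R N κ x y := by
    intro y hy
    have e1 : uz m R N κ x y = uz m R N κ' x' y := by
      unfold uz
      apply sum_congr rfl
      intro c _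
      exact (ucn_va_congr (m c) R κ κ' x x' c y
        (fun z hz => ⟨ekl z (by omega), exl z (by omega)⟩)).symm
    rw [e1]
    unfold uz
    rw [← sum_range_add_sum_Ico _ hgN]
    have e2 : ∑ c ∈ Ico g N, va (m c) R κ' x' c y = 0 := by
      apply sum_eq_zero
      intro c hc
      rw [mem_Ico] at hc
      obtain ⟨h1, h2⟩ := hd y hy
      by_cases h3 : κ' y = c
      · rw [← h3, ucn_va_eq]
        exact h2 (by omega)
      · unfold va
        rw [if_pos (by omega)]
        exact hP.nat y hy.le c (by rw [← ekl y hy]; omega) hc.2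
    rw [e2, add_zero]
  -- the points are dead or have small multiplicities
  have hac : ∀ c < g, ac R κ' x' c ≤ Y - 1 := by
    intro c hc
    by_contra h
    have h1 := (u1 c (Y - 1) (by omega)).2.2 (by omega)
    unfold aa at h1
    rw [ekl (Y - 1) (by omega), exl (Y - 1) (by omega), ← hgeq] at h1
    omega
  have hdead : ∀ c < N, μ < m c → ac R κ' x' c + m c ≤ Y - 1 := by
    intro c hc h1
    obtain ⟨y0, h2, h3⟩ := hbig c hc h1
    have h4 : ¬ y0 < sc R κ' c := by
      intro h5
      have h6 := (u1 c y0 (by omega)).1.2 h5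
      rw [ekl y0 (by omega)] at h6
      omega
    have h5 := u3 c
    omega
  have hle : ∀ y, Y - 1 ≤ y → y < R → ∀ c < κ' y, c < N → va (m c) R κ' x' c y ≤ μ := by
    intro y hy hyR c hc hcN
    by_cases h1 : m c ≤ μ
    · exact (ucn_va_le (m c) R κ' x' c y hc).trans h1
    · have h2 := hdead c hcN (by omega)
      have h3 := (u6 y hyR c hc).2.2.2
      have h4 : ¬ 0 < va (m c) R κ' x' c y := by
        intro h5
        have := h3.1 h5
        omega
      omega
  have hdrop : ∀ y, y + 1 < R → ∀ c < κ' y, 0 < va (m c) R κ' x' c y →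
      va (m c) R κ' x' c (y + 1) + 1 ≤ va (m c) R κ' x' c y := by
    intro y hy c hc h1
    have := (u7 y hy c hc).1 h1
    omega
  have hzero : ∀ y, y + 1 < R → ∀ c < κ' y, va (m c) R κ' x' c y = 0 →
      va (m c) R κ' x' c (y + 1) = 0 := by
    intro y hy c hc h1
    exact ((u7 y hy c hc).2 h1).1
  refine ⟨hkg, hgN, hPl, hd, ekr, hf, ?_, ?_, ?_, ?_⟩
  · unfold uz
    rw [sum_comm]
    apply sum_congr rfl
    intro c hc
    rw [mem_range] at hc
    rw [u8 c (by omega), T_choose]
  · intro y hy hyR
    obtain ⟨f, f1, f2⟩ := ucn_sum (range g) μ (fun c => va (m c) R κ' x' c y)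
      (fun c => va (m c) R κ' x' c (y + 1))
      (fun c hc => by
        rw [mem_range] at hc
        exact hle y (by omega) (by omega) c (by rw [ekr y hy]; exact hc) (by omega))
      (fun c hc => by
        rw [mem_range] at hc
        exact hdrop y hyR c (by rw [ekr y hy]; exact hc))
      (fun c hc => by
        rw [mem_range] at hc
        exact hzero y hyR c (by rw [ekr y hy]; exact hc))
    change uz m R g κ' x' (y + 1) + f ≤ uz m R g κ' x' y at f1
    change uz m R g κ' x' y ≤ μ * f at f2
    refine ⟨by omega, f2.trans (Nat.mul_le_mul_left _ (by omega))⟩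
  · intro y hy hyR
    unfold uz
    apply sum_eq_zero
    intro c hc
    rw [mem_range] at hc
    have h1 := (u6 y hyR c (by rw [ekr y (by omega)]; exact hc)).2.2.2
    have h2 := hac c hc
    have h3 : ¬ 0 < va (m c) R κ' x' c y := by
      intro h4
      have h5 := h1.1 h4
      by_cases h6 : m c ≤ μ
      · omega
      · have := hdead c (by omega) (by omega)
        omega
    omega
  · rw [← hf (Y - 1) (by omega)]
    have ek1 : κ' (Y - 1) = κ (Y - 1) := ekl (Y - 1) (by omega)
    have eY : Y - 1 + 1 = Y := by omega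
    obtain ⟨f, f1, f2⟩ := ucn_sum (range (κ (Y - 1))) μ (fun c => va (m c) R κ' x' c (Y - 1))
      (fun c => va (m c) R κ' x' c Y)
      (fun c hc => by
        rw [mem_range] at hc
        exact hle (Y - 1) le_rfl (by omega) c (by rw [ek1]; exact hc) (by omega))
      (fun c hc => by
        rw [mem_range] at hc
        have := hdrop (Y - 1) (by omega) c (by rw [ek1]; exact hc)
        rwa [eY] at this)
      (fun c hc => by
        rw [mem_range] at hc
        have := hzero (Y - 1) (by omega) c (by rw [ek1]; exact hc)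
        rwa [eY] at this)
    have f3 : μ * ∑ c ∈ range (κ (Y - 1)), va (m c) R κ' x' c Y + μ * f ≤
        μ * ∑ c ∈ range (κ (Y - 1)), va (m c) R κ' x' c (Y - 1) := by
      rw [← mul_add]
      exact Nat.mul_le_mul_left _ f1
    by_cases h1 : 0 < x (Y - 1)
    · rw [if_pos h1] at hgeq
      have hsc : sc R κ' (κ (Y - 1)) = Y := by
        have h2 := (u1 (κ (Y - 1)) (Y - 1) (by omega)).1.1 (by rw [ek1])
        have h3 : ¬ Y < sc R κ' (κ (Y - 1)) := by
          intro h4
          have h5 := (u1 (κ (Y - 1)) Y (by omega)).1.2 h4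
          rw [ekr Y le_rfl] at h5
          omega
        omega
      have hv : va (m (κ (Y - 1))) R κ' x' (κ (Y - 1)) Y = m (κ (Y - 1)) := by
        have := u4 (κ (Y - 1)) hkN (by rw [hsc]; omega)
        rwa [hsc] at this
      have hmk : m (κ (Y - 1)) ≤ μ := by
        by_contra h2
        obtain ⟨y0, h3, h4⟩ := hbig (κ (Y - 1)) hkN (by omega)
        have := hmono' y0 (Y - 1) (by omega) (by omega)
        omega
      have hxv : va (m (κ (Y - 1))) R κ' x' (κ (Y - 1)) (Y - 1) = x (Y - 1) := by
        have h2 := ucn_va_eq (m (κ (Y - 1))) R κ' x' (Y - 1)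
        rw [ek1, exl (Y - 1) (by omega)] at h2
        exact h2
      have e1 : uz m R g κ' x' Y =
          ∑ c ∈ range (κ (Y - 1)), va (m c) R κ' x' c Y + m (κ (Y - 1)) := by
        unfold uz
        rw [hgeq, sum_range_succ, hv]
      have e2 : uz m R g κ' x' (Y - 1) =
          ∑ c ∈ range (κ (Y - 1)), va (m c) R κ' x' c (Y - 1) + x (Y - 1) := by
        unfold uz
        rw [hgeq, sum_range_succ, hxv]
      rw [e1, e2, mul_add, mul_add]
      have h3 : μ * m (κ (Y - 1)) ≤ μ ^ 2 := by
        rw [pow_two]
        exact Nat.mul_le_mul_left _ hmk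
      have h4 : x (Y - 1) ≤ μ * x (Y - 1) := Nat.le_mul_of_pos_left _ (by omega)
      omega
    · rw [if_neg h1] at hgeq
      have hgk : g = κ (Y - 1) := by omega
      have e1 : uz m R g κ' x' Y = ∑ c ∈ range (κ (Y - 1)), va (m c) R κ' x' c Y := by
        unfold uz
        rw [hgk]
      have e2 : uz m R g κ' x' (Y - 1) =
          ∑ c ∈ range (κ (Y - 1)), va (m c) R κ' x' c (Y - 1) := by
        unfold uz
        rw [hgk]
      rw [e1, e2]
      omega

end Pool.Agent.Helper86.UN
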