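import Pool.Agent.Helper79.UN.NGoals
import Pool.Agent.Helper79.UN.Lib

/-! Packet SQ of MP_57a173 (helper79): names of sequences of subsets. -/

namespace UN.PkSQ

open Pool.Agent.Helper97.Ku NU UL

section

variable {L : Type} [CompleteBooleanAlgebra L]

theorem iffV_self (a : L) : iffV a a = ⊤ := by
  unfold iffV
  rw [himp_self, inf_idem]

theorem iffV_of_eq {a b : L} (h : a = b) : iffV a b = ⊤ := by
  rw [h, iffV_self]

/-- Replacement of equals in an extensional predicate. -/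
theorem ext_inf_eq {φ : BSet L → L} (h : BSet.Ext φ) (x y : BSet L) :
    x.eq y ⊓ φ x = x.eq y ⊓ φ y := by
  apply le_antisymm
  · exact le_inf inf_le_left (h x y)
  · refine le_inf inf_le_left ?_
    rw [BSet.eq_comm']
    exact h y x

theorem ap_sq (K : BSet L) (θ : ℕ → BSet L → L) (hθ : ∀ n, BSet.Ext (θ n)) (u x : BSet L) :
    apV (sq K θ) u x = ⨆ n : ℕ, (u.eq (nn n) ⊓ (x.mem K ⊓ θ n x)) := by
  obtain ⟨-, hk, hap⟩ := Lib.par L
  rw [hap]
  cases K with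
  | mk ι f w =>
    have e1 : (kpr u x).mem (sq (BSet.mk ι f w) θ) = ⨆ p : ℕ × ι,
        ((w p.2 ⊓ θ p.1 (f p.2)) ⊓ (u.eq (nn p.1) ⊓ x.eq (f p.2))) := by
      change (⨆ p : ℕ × ι, ((w p.2 ⊓ θ p.1 (f p.2)) ⊓ (kpr u x).eq (kpr (nn p.1) (f p.2)))) = _
      refine iSup_congr fun p => ?_
      rw [hk]
    rw [e1, iSup_prod]
    refine iSup_congr fun n => ?_
    rw [BSet.mem_mk, iSup_inf_eq, inf_iSup_eq]
    refine iSup_congr fun i => ?_
    have h2 := ext_inf_eq (hθ n) x (f i)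
    calc w i ⊓ θ n (f i) ⊓ (u.eq (nn n) ⊓ x.eq (f i))
        = u.eq (nn n) ⊓ (w i ⊓ (x.eq (f i) ⊓ θ n (f i))) := by
          ac_rfl
      _ = u.eq (nn n) ⊓ (w i ⊓ (x.eq (f i) ⊓ θ n x)) := by rw [h2]
      _ = u.eq (nn n) ⊓ (w i ⊓ x.eq (f i) ⊓ θ n x) := by
          ac_rfl

theorem ap_sq_nn (K : BSet L) (θ : ℕ → BSet L → L) (hθ : ∀ n, BSet.Ext (θ n)) (n : ℕ)
    (x : BSet L) : apV (sq K θ) (nn n) x = x.mem K ⊓ θ n x := by
  obtain ⟨-, -, hnn, -⟩ := Lib.nat L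
  rw [ap_sq K θ hθ]
  apply le_antisymm
  · refine iSup_le fun m => ?_
    rw [hnn]
    by_cases h : n = m
    · subst h
      exact inf_le_right
    · have : (bo (n = m) : L) = ⊥ := by
        unfold bo
        simp [h]
      rw [this, bot_inf_eq]
      exact bot_le
  · refine le_trans ?_ (le_iSup _ n)
    rw [BSet.eq_refl, top_inf_eq]

end

theorem sq_pf (cmp_ : U_CMP) : U_SQ := by
  intro L _ K θ hθ
  refine ⟨ap_sq K θ hθ, ap_sq_nn K θ hθ, ?_, ?_⟩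
  · unfold isUnV
    rw [iInf_eq_top]
    intro x
    apply iffV_of_eq
    rw [(cmp_ L K).1 (fun x => ⨆ n, θ n x) (BSet.Ext.iSup hθ) x]
    have h1 : (⨆ u : BSet L, (u.mem omN ⊓ apV (sq K θ) u x)) = ⨆ n : ℕ, (x.mem K ⊓ θ n x) := by
      rw [BSet.iSup_mem omN (fun u => apV (sq K θ) u x) (((Lib.ex1 L).2.1 (sq K θ) x).2.1)]
      change (⨆ n : ℕ, (⊤ ⊓ apV (sq K θ) (nn n) x)) = _
      refine iSup_congr fun n => ?_
      rw [top_inf_eq, ap_sq_nn K θ hθ]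
    rw [h1, ← inf_iSup_eq, ← inf_assoc, inf_idem]
  · intro n
    unfold isSecV
    rw [iInf_eq_top]
    intro x
    apply iffV_of_eq
    rw [(cmp_ L K).1 (θ n) (hθ n) x, ap_sq_nn K θ hθ, ← inf_assoc, inf_idem]

end UN.PkSQ
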